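import Mathlib
import Pool.Agent.TH483.Rank
import Pool.Agent.H789R5.RF.Rank

/-!
The rigidity matrix over commutative rings, integer placements, small integer placements which
attain the generic rank.
-/

set_option autoImplicit false
set_option linter.unusedSectionVars false

namespace Pool.Agent.R387.CW

open MvPolynomial Pool.Agent.H789R5

variable {n d : ℕ}

open Classical in
/-- the row of the edge `e` of the rigidity matrix of the placement `P` -/
noncomputable def rowR {R : Type*} [CommRing R] (P : Fin n → Fin d → R) (e : Sym2 (Fin n))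
    (c : Fin n × Fin d) : R :=
  if c.1 ∈ e then ∑ a, if a ∈ e then (if a = c.1 then P a c.2 else - P a c.2) else 0 else 0

theorem map_rowR {R S : Type*} [CommRing R] [CommRing S] (f : R →+* S) (P : Fin n → Fin d → R)
    (e : Sym2 (Fin n)) (c : Fin n × Fin d) :
    f (rowR P e c) = rowR (fun v i => f (P v i)) e c := by
  classical
  unfold rowR
  split_ifs with h
  · rw [map_sum]
    refine Finset.sum_congr rfl fun a _ => ?_
    split_ifs <;> simp
  · exact map_zero f

theorem rowR_mk {R : Type*} [CommRing R] (P : Fin n → Fin d → R) {u v : Fin n} (huv : u ≠ v)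
    (c : Fin n × Fin d) : rowR P s(u, v) c =
      if c.1 = u then P u c.2 - P v c.2 else if c.1 = v then P v c.2 - P u c.2 else 0 := by
  classical
  have key : ∀ F : Fin n → R, (∑ a, if a ∈ s(u, v) then F a else 0) = F u + F v := by
    intro F
    have h1 : ∀ a, (if a ∈ s(u, v) then F a else 0) =
        (if a = u then F a else 0) + (if a = v then F a else 0) := by
      intro a
      by_cases h : a = u
      · subst h
        simp [huv]
      · by_cases h' : a = v
        · subst h'
          simp [h]
        · simp [h, h']
    rw [Finset.sum_congr rfl fun a _ => h1 a, Finset.sum_add_distrib]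
    simp
  unfold rowR
  rw [key]
  by_cases h : c.1 = u
  · rw [if_pos (by rw [h]; simp), if_pos h, if_pos h.symm, if_neg (by rw [h]; exact huv.symm)]
    ring
  · by_cases h' : c.1 = v
    · rw [if_pos (by rw [h']; simp), if_neg h, if_pos h', if_neg (fun hh => h hh.symm),
        if_pos h'.symm]
      ring
    · rw [if_neg (by simp [h, h']), if_neg h, if_neg h']

/-- the rigidity matrix over a commutative ring -/
noncomputable def rm {R : Type*} [CommRing R] (G : SimpleGraph (Fin n)) (P : Fin n → Fin d → R) :
    Matrix G.edgeSet (Fin n × Fin d) R := fun e c => rowR P e.1 c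

theorem rm_real (G : SimpleGraph (Fin n)) (p : Fin n → Fin d → ℝ) :
    rigidityMatrix G p = rm G p := by
  classical
  ext1 e c
  obtain ⟨e, he⟩ := e
  induction e using Sym2.ind with
  | _ u v =>
    have huv : u ≠ v := G.ne_of_adj he
    change row p u v c = rowR p s(u, v) c
    rw [rowR_mk p huv]
    unfold row
    split_ifs <;> rfl

theorem rm_map {R S : Type*} [CommRing R] [CommRing S] (f : R →+* S) (G : SimpleGraph (Fin n))
    (P : Fin n → Fin d → R) : (rm G P).map f = rm G (fun v i => f (P v i)) := by
  ext1 e c
  exact map_rowR f P e.1 c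

theorem rank_le_of_int {F K R C : Type*} [Field F] [Field K] [CharZero K] [Fintype R]
    [Fintype C] (B : Matrix R C ℤ) :
    (B.map (Int.castRingHom F)).rank ≤ (B.map (Int.castRingHom K)).rank := by
  obtain ⟨s, c, h⟩ := TH483.exists_minor (B.map (Int.castRingHom F))
  refine TH483.le_rank_of_minor _ s c ?_
  have e1 : ((B.map (Int.castRingHom F)).submatrix s c).det =
      Int.castRingHom F (B.submatrix s c).det := by
    rw [RingHom.map_det]
    rfl
  have e2 : ((B.map (Int.castRingHom K)).submatrix s c).det =
      Int.castRingHom K (B.submatrix s c).det := by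
    rw [RingHom.map_det]
    rfl
  rw [e1] at h
  rw [e2]
  intro h0
  apply h
  have h3 : (B.submatrix s c).det = 0 := by
    have : ((B.submatrix s c).det : K) = 0 := h0
    exact_mod_cast this
  rw [h3, map_zero]

theorem rank_int_eq {F K R C : Type*} [Field F] [CharZero F] [Field K] [CharZero K] [Fintype R]
    [Fintype C] (B : Matrix R C ℤ) :
    (B.map (Int.castRingHom F)).rank = (B.map (Int.castRingHom K)).rank :=
  le_antisymm (rank_le_of_int B) (rank_le_of_int B)

/-- the rank of an integer placement over the complex and over the real numbers -/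
theorem rank_cast (G : SimpleGraph (Fin n)) (q : Fin n → Fin d → ℤ) :
    (rm G (fun v i => (q v i : ℂ))).rank = (rigidityMatrix G (fun v i => (q v i : ℝ))).rank := by
  classical
  rw [rm_real]
  have h1 : rm G (fun v i => (q v i : ℂ)) = (rm G q).map (Int.castRingHom ℂ) := by
    rw [rm_map]
    rfl
  have h2 : rm G (fun v i => (q v i : ℝ)) = (rm G q).map (Int.castRingHom ℝ) := by
    rw [rm_map]
    rfl
  rw [h1, h2]
  exact rank_int_eq _

theorem totalDegree_det_le {σ : Type*} {K : Type*} [CommRing K] {r δ : ℕ}
    (Z : Matrix (Fin r) (Fin r) (MvPolynomial σ K)) (hZ : ∀ i j, (Z i j).totalDegree ≤ δ) :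
    Z.det.totalDegree ≤ r * δ := by
  rw [Matrix.det_apply]
  refine (totalDegree_finsetSum _ _).trans (Finset.sup_le fun ρ _ => ?_)
  have h1 : (∏ i, Z (ρ i) i).totalDegree ≤ r * δ := by
    refine (totalDegree_finsetProd _ _).trans ?_
    refine (Finset.sum_le_card_nsmul _ _ δ fun i _ => hZ _ _).trans ?_
    simp
  rcases Int.units_eq_one_or (Equiv.Perm.sign ρ) with h | h
  · rw [h, one_smul]; exact h1
  · rw [h, Units.neg_smul, one_smul, totalDegree_neg]; exact h1

/-- a small integer placement which attains the rank of a given placement -/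
theorem exists_small (G : SimpleGraph (Fin n)) (p : Fin n → Fin d → ℝ) :
    ∃ q : Fin n → Fin d → ℤ, (∀ v i, 0 ≤ q v i ∧ q v i ≤ n * d) ∧
      (rigidityMatrix G p).rank ≤ (rigidityMatrix G (fun v i => (q v i : ℝ))).rank := by
  classical
  obtain ⟨ρ, hρ, s, c, hsc⟩ : ∃ ρ, (rigidityMatrix G p).rank = ρ ∧
      ∃ (s : Fin ρ → G.edgeSet) (c : Fin ρ → Fin n × Fin d),
        ((rigidityMatrix G p).submatrix s c).det ≠ 0 := ⟨_, rfl, TH483.exists_minor _⟩
  obtain ⟨-, hc⟩ := TH483.inj_of_det _ s c hsc
  have hr : ρ ≤ n * d := by
    have := Fintype.card_le_of_injective c hc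
    simpa using this
  set S : Matrix G.edgeSet (Fin n × Fin d) (MvPolynomial (Fin n × Fin d) ℝ) :=
    rm G (fun v i => X (v, i)) with hS
  set f := (S.submatrix s c).det with hf
  have hev : ∀ x : Fin n × Fin d → ℝ, eval x f =
      ((rigidityMatrix G (fun v i => x (v, i))).submatrix s c).det := by
    intro x
    rw [hf, RingHom.map_det]
    congr 1
    have h1 : S.map (eval x) = rigidityMatrix G (fun v i => x (v, i)) := by
      rw [hS, rm_real, rm_map]
      congr 1
      funext v i
      simp
    rw [← h1]
    rfl
  have hdeg : f.totalDegree ≤ n * d := by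
    refine (totalDegree_det_le (δ := 1) _ ?_).trans (by omega)
    intro i j
    rw [Matrix.submatrix_apply, hS]
    change (rowR (fun v i => (X (v, i) : MvPolynomial (Fin n × Fin d) ℝ)) (s i).1
      (c j)).totalDegree ≤ 1
    unfold rowR
    split_ifs with h
    · refine (totalDegree_finsetSum _ _).trans (Finset.sup_le fun a _ => ?_)
      split_ifs
      · rw [totalDegree_X]
      · rw [totalDegree_neg, totalDegree_X]
      · simp
    · simp
  by_contra hcon
  push Not at hcon
  have hf0 : f = 0 := by
    refine eq_zero_of_eval_zero_at_prod_finset f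
      (fun _ => (Finset.range (n * d + 1)).image (Nat.cast : ℕ → ℝ)) ?_ ?_
    · intro i
      rw [Finset.card_image_of_injective _ Nat.cast_injective, Finset.card_range]
      exact Nat.lt_succ_of_le ((degreeOf_le_totalDegree f i).trans hdeg)
    · intro x hx
      have hx' : ∀ j, ∃ k : ℕ, k ≤ n * d ∧ (k : ℝ) = x j := by
        intro j
        obtain ⟨k, hk, hkx⟩ := Finset.mem_image.1 (hx j)
        exact ⟨k, Nat.lt_succ_iff.1 (Finset.mem_range.1 hk), hkx⟩
      choose k hk hkx using hx'
      rw [hev]
      by_contra hne
      have h1 := TH483.le_rank_of_minor _ s c hne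
      have h2 := hcon (fun v i => (k (v, i) : ℤ)) (fun v i => ⟨by positivity, by
        exact_mod_cast hk (v, i)⟩)
      have h3 : (fun (v : Fin n) (i : Fin d) => (((k (v, i) : ℤ)) : ℝ)) =
          fun v i => x (v, i) := by
        funext v i
        rw [← hkx]
        simp
      rw [h3] at h2
      omega
  apply hsc
  have h4 := hev (fun c => p c.1 c.2)
  rw [hf0, map_zero] at h4
  exact h4.symm

end Pool.Agent.R387.CW
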