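import Mathlib
import Pool.Agent.W943.Pm.Def
import Pool.Agent.W943.Pm.P3
import Pool.Agent.R387.CW.Mat

/-!
The symbolic rigidity matrix of a graph which has small cutwidth after the deletion of a few
vertices is a polynomial matrix of small path width.
-/

set_option autoImplicit false
set_option linter.unusedSectionVars false

namespace Pool.Agent.R387.CW

open MvPolynomial Pool.Agent.W943 Pool.Agent.W943.Pm Pool.Agent.H789R5

variable {n d : ℕ}

open Classical in
/-- The pairs `(u, v)` of adjacent vertices of `G - H` such that in the vertex order `π` the vertex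
`u` is one of the first `l` vertices and `v` is not: one pair for each edge of `G - H` which
crosses the cut after the first `l` vertices. -/
noncomputable def crossing (G : SimpleGraph (Fin n)) (H : Finset (Fin n))
    (π : Equiv.Perm (Fin n)) (l : ℕ) : Finset (Fin n × Fin n) :=
  Finset.univ.filter fun p => G.Adj p.1 p.2 ∧ p.1 ∉ H ∧ p.2 ∉ H ∧ (π p.1 : ℕ) < l ∧
    l ≤ (π p.2 : ℕ)

/-- After the deletion of at most `t` vertices the graph has cutwidth at most `w`: for some order
of the vertices every cut of the order is crossed by at most `w` edges of the rest. -/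
def HubCutwidthLE (t w : ℕ) (G : SimpleGraph (Fin n)) : Prop :=
  ∃ (H : Finset (Fin n)) (π : Equiv.Perm (Fin n)), H.card ≤ t ∧ ∀ l, (crossing G H π l).card ≤ w

open Classical in
/-- the end of `e` in whose block the contribution of the end `a` is recorded -/
noncomputable def owner (H : Finset (Fin n)) (e : Sym2 (Fin n)) (a : Fin n) : Fin n :=
  if h : a ∈ H ∧ ∃ x ∈ e, x ∉ H then Classical.choose h.2 else a

theorem owner_mem {H : Finset (Fin n)} {e : Sym2 (Fin n)} {a : Fin n} (ha : a ∈ e) :
    owner H e a ∈ e := by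
  unfold owner
  split_ifs with h
  · exact (Classical.choose_spec h.2).1
  · exact ha

theorem owner_hub {H : Finset (Fin n)} {e : Sym2 (Fin n)} {a : Fin n}
    (h : owner H e a ∈ H) : ∀ x ∈ e, x ∈ H := by
  unfold owner at h
  split_ifs at h with h1
  · exact absurd h (Classical.choose_spec h1.2).2
  · intro x hx
    by_contra hxH
    exact h1 ⟨h, x, hx, hxH⟩

theorem owner_not {H : Finset (Fin n)} {e : Sym2 (Fin n)} {a : Fin n} (h : a ∉ H) :
    owner H e a = a := by
  unfold owner
  rw [dif_neg (fun hh => h hh.1)]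

/-- the coordinates: numbers at the hubs, variables elsewhere -/
noncomputable def zz (H : Finset (Fin n)) (g : Fin n → Fin d → ℂ) (a : Fin n) (i : Fin d) :
    MvPolynomial (Fin (n * d)) ℂ :=
  if a ∈ H then C (g a i) else X (finProdFinEquiv (a, i))

theorem zz_supported {H : Finset (Fin n)} (g : Fin n → Fin d → ℂ) {e : Sym2 (Fin n)} {a x : Fin n}
    (h : owner H e a = x) (i : Fin d) :
    zz H g a i ∈ supported ℂ ({finProdFinEquiv (x, i)} : Set (Fin (n * d))) := by
  unfold zz
  split_ifs with h1
  · exact (supported ℂ _).algebraMap_mem _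
  · rw [owner_not h1] at h
    subst h
    exact X_mem_supported.2 rfl

theorem zz_deg (H : Finset (Fin n)) (g : Fin n → Fin d → ℂ) (a : Fin n) (i : Fin d) :
    (zz H g a i).totalDegree ≤ 1 := by
  unfold zz
  split_ifs
  · rw [totalDegree_C]; exact Nat.zero_le _
  · rw [totalDegree_X]

open Classical in
/-- the part of the row of the edge `e` which belongs to the block `x` -/
noncomputable def piece (H : Finset (Fin n)) (g : Fin n → Fin d → ℂ) (e : Sym2 (Fin n))
    (x c : Fin n × Fin d) : MvPolynomial (Fin (n * d)) ℂ :=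
  if c.2 = x.2 ∧ c.1 ∈ e then ∑ a, if a ∈ e ∧ owner H e a = x.1 then
    (if a = c.1 then zz H g a x.2 else - zz H g a x.2) else 0 else 0

theorem piece_supported (H : Finset (Fin n)) (g : Fin n → Fin d → ℂ) (e : Sym2 (Fin n))
    (x c : Fin n × Fin d) :
    piece H g e x c ∈ supported ℂ ({finProdFinEquiv x} : Set (Fin (n * d))) := by
  classical
  unfold piece
  split_ifs with h
  · refine Subalgebra.sum_mem _ fun a _ => ?_
    split_ifs with h1 h2
    · exact zz_supported g h1.2 _
    · exact Subalgebra.neg_mem _ (zz_supported g h1.2 _)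
    · exact Subalgebra.zero_mem _
  · exact Subalgebra.zero_mem _

theorem piece_ne {H : Finset (Fin n)} {g : Fin n → Fin d → ℂ} {e : Sym2 (Fin n)}
    {x c : Fin n × Fin d} (h : piece H g e x c ≠ 0) :
    c.2 = x.2 ∧ c.1 ∈ e ∧ x.1 ∈ e ∧ (x.1 ∈ H → ∀ y ∈ e, y ∈ H) := by
  classical
  unfold piece at h
  split_ifs at h with h1
  · obtain ⟨a, -, ha⟩ := Finset.exists_ne_zero_of_sum_ne_zero h
    split_ifs at ha with h2 h3
    · exact ⟨h1.1, h1.2, h2.2 ▸ owner_mem h2.1, fun h4 => owner_hub (h2.2.symm ▸ h4)⟩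
    · exact ⟨h1.1, h1.2, h2.2 ▸ owner_mem h2.1, fun h4 => owner_hub (h2.2.symm ▸ h4)⟩
    · exact absurd rfl ha
  · exact absurd rfl h

theorem sum_piece (H : Finset (Fin n)) (g : Fin n → Fin d → ℂ) (e : Sym2 (Fin n))
    (c : Fin n × Fin d) : ∑ x, piece H g e x c = rowR (zz H g) e c := by
  classical
  unfold piece rowR
  by_cases h : c.1 ∈ e
  · rw [if_pos h, Fintype.sum_prod_type]
    have h1 : ∀ x1 : Fin n, (∑ x2 : Fin d, if c.2 = (x1, x2).2 ∧ c.1 ∈ e then
        ∑ a, if a ∈ e ∧ owner H e a = (x1, x2).1 then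
          (if a = c.1 then zz H g a (x1, x2).2 else - zz H g a (x1, x2).2) else 0 else 0) =
        ∑ a, if a ∈ e ∧ owner H e a = x1 then
          (if a = c.1 then zz H g a c.2 else - zz H g a c.2) else 0 := by
      intro x1
      rw [Finset.sum_eq_single c.2]
      · rw [if_pos ⟨rfl, h⟩]
      · intro x2 _ hx2
        rw [if_neg (fun hh => hx2 hh.1.symm)]
      · intro hh
        exact absurd (Finset.mem_univ _) hh
    rw [Finset.sum_congr rfl fun x1 _ => h1 x1, Finset.sum_comm]
    refine Finset.sum_congr rfl fun a _ => ?_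
    by_cases ha : a ∈ e
    · rw [if_pos ha, Finset.sum_eq_single (owner H e a)]
      · rw [if_pos ⟨ha, rfl⟩]
      · intro x1 _ hx1
        rw [if_neg (fun hh => hx1 hh.2.symm)]
      · intro hh
        exact absurd (Finset.mem_univ _) hh
    · rw [if_neg ha]
      refine Finset.sum_eq_zero fun x1 _ => ?_
      rw [if_neg (fun hh => ha hh.1)]
  · rw [if_neg h]
    refine Finset.sum_eq_zero fun x _ => ?_
    rw [if_neg (fun hh => h hh.2)]

/-- the width -/
def width (d t w : ℕ) : ℕ := t * t + t + 2 * w + (t + 1 + 2 * w) * d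

/-! ### The cuts -/

section cuts

variable {G : SimpleGraph (Fin n)} {H : Finset (Fin n)} {π : Equiv.Perm (Fin n)} {t w : ℕ}

theorem mem_crossing {l : ℕ} {p : Fin n × Fin n} : p ∈ crossing G H π l ↔
    G.Adj p.1 p.2 ∧ p.1 ∉ H ∧ p.2 ∉ H ∧ (π p.1 : ℕ) < l ∧ l ≤ (π p.2 : ℕ) := by
  classical
  unfold crossing
  simp

open Classical in
/-- the vertex at position `j` -/
noncomputable def atp (π : Equiv.Perm (Fin n)) (j : ℕ) : Finset (Fin n) :=
  Finset.univ.filter fun v => (π v : ℕ) = j

theorem mem_atp {j : ℕ} {v : Fin n} : v ∈ atp π j ↔ (π v : ℕ) = j := by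
  classical
  unfold atp
  simp

theorem atp_card (π : Equiv.Perm (Fin n)) (j : ℕ) : (atp π j).card ≤ 1 := by
  rw [Finset.card_le_one]
  intro a ha b hb
  rw [mem_atp] at ha hb
  exact π.injective (Fin.ext (ha.trans hb.symm))

open Classical in
/-- the edges which may belong to both sides -/
noncomputable def rowsBoth (G : SimpleGraph (Fin n)) (H : Finset (Fin n))
    (π : Equiv.Perm (Fin n)) (j : ℕ) : Finset (Sym2 (Fin n)) :=
  (H ×ˢ H).image (fun p => s(p.1, p.2)) ∪ (atp π j ×ˢ H).image (fun p => s(p.1, p.2)) ∪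
    (crossing G H π j).image (fun p => s(p.1, p.2)) ∪
    (crossing G H π (j + 1)).image (fun p => s(p.1, p.2))

open Classical in
/-- the vertices whose columns may belong to both sides -/
noncomputable def colsBoth (G : SimpleGraph (Fin n)) (H : Finset (Fin n))
    (π : Equiv.Perm (Fin n)) (j : ℕ) : Finset (Fin n) :=
  H ∪ atp π j ∪ (crossing G H π j).image (fun p => p.1) ∪
    (crossing G H π (j + 1)).image (fun p => p.2)

theorem rowsBoth_card (hH : H.card ≤ t) (hw : ∀ l, (crossing G H π l).card ≤ w) (j : ℕ) :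
    (rowsBoth G H π j).card ≤ t * t + t + 2 * w := by
  classical
  unfold rowsBoth
  have h1 : ((H ×ˢ H).image (fun p => s(p.1, p.2))).card ≤ t * t := by
    refine Finset.card_image_le.trans ?_
    rw [Finset.card_product]
    exact Nat.mul_le_mul hH hH
  have h2 : ((atp π j ×ˢ H).image (fun p => s(p.1, p.2))).card ≤ t := by
    refine Finset.card_image_le.trans ?_
    rw [Finset.card_product]
    calc _ ≤ 1 * t := Nat.mul_le_mul (atp_card π j) hH
      _ = t := one_mul t
  have h3 : ((crossing G H π j).image (fun p => s(p.1, p.2))).card ≤ w :=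
    Finset.card_image_le.trans (hw j)
  have h4 : ((crossing G H π (j + 1)).image (fun p => s(p.1, p.2))).card ≤ w :=
    Finset.card_image_le.trans (hw (j + 1))
  refine (Finset.card_union_le _ _).trans ?_
  refine (Nat.add_le_add ((Finset.card_union_le _ _).trans
    (Nat.add_le_add ((Finset.card_union_le _ _).trans (Nat.add_le_add h1 h2)) h3)) h4).trans ?_
  omega

theorem colsBoth_card (hH : H.card ≤ t) (hw : ∀ l, (crossing G H π l).card ≤ w) (j : ℕ) :
    (colsBoth G H π j).card ≤ t + 1 + 2 * w := by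
  classical
  unfold colsBoth
  have h3 : ((crossing G H π j).image (fun p => p.1)).card ≤ w :=
    Finset.card_image_le.trans (hw j)
  have h4 : ((crossing G H π (j + 1)).image (fun p => p.2)).card ≤ w :=
    Finset.card_image_le.trans (hw (j + 1))
  refine (Finset.card_union_le _ _).trans ?_
  refine (Nat.add_le_add ((Finset.card_union_le _ _).trans
    (Nat.add_le_add ((Finset.card_union_le _ _).trans (Nat.add_le_add hH (atp_card π j))) h3))
    h4).trans ?_
  omega

theorem mem_rowsBoth {e : Sym2 (Fin n)} (he : e ∈ G.edgeSet) {c c' : Fin n} {j : ℕ}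
    (hc : c ∈ e) (hc' : c' ∈ e) (hH : c ∈ H → ∀ x ∈ e, x ∈ H) (hH' : c' ∈ H → ∀ x ∈ e, x ∈ H)
    (h : (π c : ℕ) ≤ j) (h' : j ≤ (π c' : ℕ)) : e ∈ rowsBoth G H π j := by
  classical
  unfold rowsBoth
  rw [Finset.mem_union, Finset.mem_union, Finset.mem_union, Finset.mem_image, Finset.mem_image,
    Finset.mem_image, Finset.mem_image]
  by_cases hall : ∀ x ∈ e, x ∈ H
  · left; left; left
    induction e using Sym2.ind with
    | _ u v =>
      exact ⟨(u, v), Finset.mem_product.2 ⟨hall u (by simp), hall v (by simp)⟩, rfl⟩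
  · have hcH : c ∉ H := fun hh => hall (hH hh)
    have hcH' : c' ∉ H := fun hh => hall (hH' hh)
    by_cases hcc : c = c'
    · subst hcc
      have hj : (π c : ℕ) = j := le_antisymm h h'
      obtain ⟨y, rfl⟩ := hc
      have hadj : G.Adj c y := he
      by_cases hy : y ∈ H
      · left; left; right
        exact ⟨(c, y), Finset.mem_product.2 ⟨mem_atp.2 hj, hy⟩, rfl⟩
      · rcases lt_trichotomy (π y : ℕ) j with h1 | h1 | h1
        · left; right
          exact ⟨(y, c), mem_crossing.2 ⟨hadj.symm, hy, hcH, h1, h'⟩, Sym2.eq_swap⟩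
        · exact absurd (π.injective (Fin.ext (hj.trans h1.symm))) hadj.ne
        · right
          exact ⟨(c, y), mem_crossing.2 ⟨hadj, hcH, hy, Nat.lt_succ_of_le h, h1⟩, rfl⟩
    · have hee : e = s(c, c') := (Sym2.mem_and_mem_iff hcc).1 ⟨hc, hc'⟩
      subst hee
      have hadj : G.Adj c c' := he
      rcases h.lt_or_eq with h1 | h1
      · left; right
        exact ⟨(c, c'), mem_crossing.2 ⟨hadj, hcH, hcH', h1, h'⟩, rfl⟩
      · right
        refine ⟨(c, c'), mem_crossing.2 ⟨hadj, hcH, hcH', Nat.lt_succ_of_le h, ?_⟩, rfl⟩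
        refine Nat.succ_le_of_lt (lt_of_le_of_ne h' fun h2 => hcc ?_)
        exact π.injective (Fin.ext (h1.trans h2))

theorem mem_colsBoth {e e' : Sym2 (Fin n)} (he : e ∈ G.edgeSet) (he' : e' ∈ G.edgeSet)
    {b c c' : Fin n} {j : ℕ} (hb : b ∈ e) (hb' : b ∈ e')
    (hc : c ∈ e) (hc' : c' ∈ e') (hH : c ∈ H → ∀ x ∈ e, x ∈ H)
    (hH' : c' ∈ H → ∀ x ∈ e', x ∈ H)
    (h : (π c : ℕ) ≤ j) (h' : j ≤ (π c' : ℕ)) : b ∈ colsBoth G H π j := by
  classical
  unfold colsBoth
  rw [Finset.mem_union, Finset.mem_union, Finset.mem_union, Finset.mem_image, Finset.mem_image]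
  by_cases hbH : b ∈ H
  · left; left; left; exact hbH
  · have hcH : c ∉ H := fun hh => hbH (hH hh b hb)
    have hcH' : c' ∉ H := fun hh => hbH (hH' hh b hb')
    rcases lt_trichotomy (π b : ℕ) j with h1 | h1 | h1
    · left; right
      have hne : b ≠ c' := by
        rintro rfl
        omega
      have hee : e' = s(b, c') := (Sym2.mem_and_mem_iff hne).1 ⟨hb', hc'⟩
      subst hee
      exact ⟨(b, c'), mem_crossing.2 ⟨he', hbH, hcH', h1, h'⟩, rfl⟩
    · left; left; right
      exact mem_atp.2 h1
    · right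
      have hne : c ≠ b := by
        rintro rfl
        omega
      have hee : e = s(c, b) := (Sym2.mem_and_mem_iff hne).1 ⟨hc, hb⟩
      subst hee
      exact ⟨(c, b), mem_crossing.2 ⟨he, hcH, hbH, Nat.lt_succ_of_le h, h1⟩, rfl⟩

end cuts

/-! ### The decomposition -/

/-- the block at position `t` -/
def pos (π : Equiv.Perm (Fin n)) : Fin (n * d) ≃ Fin n × Fin d :=
  finProdFinEquiv.symm.trans (Equiv.prodCongr π.symm (Equiv.refl _))

theorem pos_fst (π : Equiv.Perm (Fin n)) (t : Fin (n * d)) :
    (π (pos π t).1 : ℕ) = t.val / d := by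
  change (π (π.symm (finProdFinEquiv.symm t).1) : ℕ) = _
  rw [Equiv.apply_symm_apply]
  rfl

theorem submersive_X (m : ℕ) : Cut.Submersive (fun i : Fin m => (X i : MvPolynomial (Fin m) ℂ)) := by
  classical
  refine ⟨fun i l => if i = l then 1 else 0, fun i k => ?_⟩
  rw [Finset.sum_eq_single i]
  · beta_reduce
    rw [if_pos rfl, one_mul, pderiv_X]
    by_cases h : i = k
    · subst h; simp
    · rw [if_neg h, Pi.single_eq_of_ne (Ne.symm h)]
  · intro b _ hb
    beta_reduce
    rw [if_neg (Ne.symm hb), zero_mul]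
  · intro h
    exact absurd (Finset.mem_univ _) h

/-- the symbolic rigidity matrix with fixed hubs, with numbered rows and columns -/
noncomputable def bigM (G : SimpleGraph (Fin n)) {N : ℕ} (eR : Fin N ≃ G.edgeSet)
    (H : Finset (Fin n)) (g : Fin n → Fin d → ℂ) :
    Matrix (Fin N) (Fin (n * d)) (MvPolynomial (Fin (n * d)) ℂ) :=
  (rm G (zz H g)).submatrix eR finProdFinEquiv.symm

theorem pathHidden {t w N : ℕ} {G : SimpleGraph (Fin n)} {H : Finset (Fin n)}
    {π : Equiv.Perm (Fin n)} (eR : Fin N ≃ G.edgeSet) (hH : H.card ≤ t)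
    (hw : ∀ l, (crossing G H π l).card ≤ w) (g : Fin n → Fin d → ℂ) :
    PathHidden 1 (width d t w) (bigM G eR H g) := by
  classical
  refine ⟨n * d, n * d, fun i => X i, fun s => finProdFinEquiv (pos π s),
    fun s i j => piece H g (eR i).1 (pos π s) (finProdFinEquiv.symm j), submersive_X _,
    fun s i j => piece_supported H g _ _ _, ?_, ?_, ?_⟩
  · intro v
    rw [Finset.card_le_one]
    intro a ha b hb
    rw [Finset.mem_filter] at ha hb
    exact (pos π).injective (finProdFinEquiv.injective (ha.2.trans hb.2.symm))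
  · intro l
    set I : Fin (n * d) → Finset (Fin N) := fun s => Finset.univ.filter fun i =>
      (pos π s).1 ∈ (eR i).1 ∧ ((pos π s).1 ∈ H → ∀ x ∈ (eR i).1, x ∈ H) with hI
    set J : Fin (n * d) → Finset (Fin (n * d)) := fun s => Finset.univ.filter fun j =>
      ∃ i : Fin N, (pos π s).1 ∈ (eR i).1 ∧ ((pos π s).1 ∈ H → ∀ x ∈ (eR i).1, x ∈ H) ∧
        (finProdFinEquiv.symm j).1 ∈ (eR i).1 with hJ
    refine cut_of_support _ I J ?_ _ ?_ ?_
    · intro s i j hne
      obtain ⟨-, h2, h3, h4⟩ := piece_ne hne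
      rw [hI, hJ]
      simp only [Finset.mem_filter, Finset.mem_univ, true_and]
      exact ⟨⟨h3, h4⟩, i, h3, h4, h2⟩
    · have hsub : (((Finset.univ.filter fun s : Fin (n * d) => s.val < l).biUnion I ∩
          (Finset.univ.filter fun s : Fin (n * d) => s.val < l)ᶜ.biUnion I).image
            fun i => (eR i).1) ⊆ rowsBoth G H π (l / d) := by
        intro e he
        rw [Finset.mem_image] at he
        obtain ⟨i, hi, rfl⟩ := he
        rw [Finset.mem_inter, Finset.mem_biUnion, Finset.mem_biUnion] at hi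
        obtain ⟨⟨s, hs, hsi⟩, s', hs', hsi'⟩ := hi
        rw [Finset.mem_filter] at hs
        rw [Finset.mem_compl, Finset.mem_filter] at hs'
        rw [hI, Finset.mem_filter] at hsi hsi'
        refine mem_rowsBoth (eR i).2 hsi.2.1 hsi'.2.1 hsi.2.2 hsi'.2.2 ?_ ?_
        · rw [pos_fst]
          exact Nat.div_le_div_right hs.2.le
        · rw [pos_fst]
          refine Nat.div_le_div_right ?_
          by_contra hlt
          exact hs' ⟨Finset.mem_univ _, not_le.1 hlt⟩
      have h1 := Finset.card_le_card hsub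
      rw [Finset.card_image_of_injective _
        (fun i i' h => eR.injective (Subtype.ext h))] at h1
      refine h1.trans ((rowsBoth_card hH hw _).trans ?_)
      unfold width
      omega
    · have hsub : (((Finset.univ.filter fun s : Fin (n * d) => s.val < l).biUnion J ∩
          (Finset.univ.filter fun s : Fin (n * d) => s.val < l)ᶜ.biUnion J).image
            fun j => finProdFinEquiv.symm j) ⊆
          colsBoth G H π (l / d) ×ˢ (Finset.univ : Finset (Fin d)) := by
        intro x hx
        rw [Finset.mem_image] at hx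
        obtain ⟨j, hj, rfl⟩ := hx
        rw [Finset.mem_inter, Finset.mem_biUnion, Finset.mem_biUnion] at hj
        obtain ⟨⟨s, hs, hsj⟩, s', hs', hsj'⟩ := hj
        rw [Finset.mem_filter] at hs
        rw [Finset.mem_compl, Finset.mem_filter] at hs'
        rw [hJ, Finset.mem_filter] at hsj hsj'
        obtain ⟨-, i, hi1, hi2, hi3⟩ := hsj
        obtain ⟨-, i', hi1', hi2', hi3'⟩ := hsj'
        rw [Finset.mem_product]
        refine ⟨mem_colsBoth (eR i).2 (eR i').2 hi3 hi3' hi1 hi1' hi2 hi2' ?_ ?_,
          Finset.mem_univ _⟩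
        · rw [pos_fst]
          exact Nat.div_le_div_right hs.2.le
        · rw [pos_fst]
          refine Nat.div_le_div_right ?_
          by_contra hlt
          exact hs' ⟨Finset.mem_univ _, not_le.1 hlt⟩
      have h1 := Finset.card_le_card hsub
      rw [Finset.card_image_of_injective _ finProdFinEquiv.symm.injective,
        Finset.card_product, Finset.card_univ, Fintype.card_fin] at h1
      refine h1.trans ((Nat.mul_le_mul_right _ (colsBoth_card hH hw _)).trans ?_)
      unfold width
      omega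
  · ext1 i j
    rw [Matrix.map_apply]
    have h0 : ∀ F : Fin (n * d) → Matrix (Fin N) (Fin (n * d)) (MvPolynomial (Fin (n * d)) ℂ),
        (∑ s, F s) i j = ∑ s, F s i j := fun F => Matrix.sum_apply i j _ _
    have h1 : aeval (fun i : Fin (n * d) => (X i : MvPolynomial (Fin (n * d)) ℂ)) =
        AlgHom.id ℂ _ := aeval_X_left
    rw [h1]
    refine Eq.trans ?_ (h0 _).symm
    change rowR (zz H g) (eR i).1 (finProdFinEquiv.symm j) = _
    rw [← sum_piece]
    exact (Equiv.sum_comp (pos π) fun x => piece H g (eR i).1 x (finProdFinEquiv.symm j)).symm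

end Pool.Agent.R387.CW
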