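import Mathlib
import Pool.Agent.W943.Cut.Def

/-!
The explicit set of placements.
-/

set_option autoImplicit false
set_option linter.unusedSectionVars false

namespace Pool.Agent.R387.CW

open Pool.Agent.W943

open Classical in
/-- The placements of `n` vertices in `ℤ^d`: at most `t` vertices have arbitrary coordinates in
`{0, …, nd}`, the coordinates of the other vertices are those of one of the points of the explicit
set `Cut.points`, whose coordinates are `x_k = ∑_{l < s} y_l ∏_{j ≠ k} (z_l - j)` with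
`y_l ∈ {0, …, nd}` and `z_l ∈ {0, …, (nd)²}`. -/
noncomputable def placements (d n t s : ℕ) : Finset (Fin n → Fin d → ℤ) :=
  (((Finset.univ : Finset (Finset (Fin n))).filter fun H => H.card ≤ t) ×ˢ
    Cut.points (n * d) s (n * d)).biUnion fun a =>
      Fintype.piFinset fun v => Fintype.piFinset fun i =>
        if v ∈ a.1 then Finset.Icc (0 : ℤ) ((n * d : ℕ) : ℤ) else {a.2 (finProdFinEquiv (v, i))}

theorem mem_placements {d n t s : ℕ} {q : Fin n → Fin d → ℤ} : q ∈ placements d n t s ↔
    ∃ H : Finset (Fin n), H.card ≤ t ∧ ∃ p ∈ Cut.points (n * d) s (n * d), ∀ v i,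
      if v ∈ H then 0 ≤ q v i ∧ q v i ≤ ((n * d : ℕ) : ℤ) else
        q v i = p (finProdFinEquiv (v, i)) := by
  classical
  unfold placements
  rw [Finset.mem_biUnion]
  constructor
  · rintro ⟨⟨H, p⟩, ha, hq⟩
    rw [Finset.mem_product, Finset.mem_filter] at ha
    refine ⟨H, ha.1.2, p, ha.2, fun v i => ?_⟩
    have h1 := Fintype.mem_piFinset.1 (Fintype.mem_piFinset.1 hq v) i
    by_cases hv : v ∈ H
    · rw [if_pos hv] at h1 ⊢
      exact Finset.mem_Icc.1 h1
    · rw [if_neg hv] at h1 ⊢
      exact Finset.mem_singleton.1 h1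
  · rintro ⟨H, hH, p, hp, hq⟩
    refine ⟨(H, p), Finset.mem_product.2 ⟨Finset.mem_filter.2 ⟨Finset.mem_univ _, hH⟩, hp⟩, ?_⟩
    refine Fintype.mem_piFinset.2 fun v => Fintype.mem_piFinset.2 fun i => ?_
    have h1 := hq v i
    by_cases hv : v ∈ H
    · rw [if_pos hv] at h1
      rw [if_pos hv]
      exact Finset.mem_Icc.2 h1
    · rw [if_neg hv] at h1
      rw [if_neg hv]
      exact Finset.mem_singleton.2 h1

theorem small_card (n t : ℕ) :
    ((Finset.univ : Finset (Finset (Fin n))).filter fun H => H.card ≤ t).card ≤ (n + 1) ^ t := by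
  classical
  induction t with
  | zero =>
    rw [pow_zero, Finset.card_le_one]
    intro a ha b hb
    rw [Finset.mem_filter] at ha hb
    rw [Finset.card_eq_zero.1 (Nat.le_zero.1 ha.2), Finset.card_eq_zero.1 (Nat.le_zero.1 hb.2)]
  | succ t ih =>
    have hsub : ((Finset.univ : Finset (Finset (Fin n))).filter fun H => H.card ≤ t + 1) ⊆
        ((((Finset.univ : Finset (Finset (Fin n))).filter fun H => H.card ≤ t) ×ˢ
          (Finset.univ : Finset (Option (Fin n))))).image fun a =>
            (a.2.elim a.1 fun v => insert v a.1) := by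
      intro H hH
      rw [Finset.mem_filter] at hH
      rw [Finset.mem_image]
      rcases H.eq_empty_or_nonempty with rfl | ⟨v, hv⟩
      · exact ⟨(∅, none), Finset.mem_product.2 ⟨Finset.mem_filter.2 ⟨Finset.mem_univ _, by simp⟩,
          Finset.mem_univ _⟩, rfl⟩
      · refine ⟨(H.erase v, some v), Finset.mem_product.2 ⟨Finset.mem_filter.2
          ⟨Finset.mem_univ _, ?_⟩, Finset.mem_univ _⟩, ?_⟩
        · rw [Finset.card_erase_of_mem hv]
          omega
        · exact Finset.insert_erase hv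
    refine (Finset.card_le_card hsub).trans (Finset.card_image_le.trans ?_)
    rw [Finset.card_product, Finset.card_univ, Fintype.card_option, Fintype.card_fin, pow_succ]
    exact Nat.mul_le_mul_right _ ih

theorem points_card (n s D : ℕ) : (Cut.points n s D).card ≤ (D + 1) ^ s * (n * D + 1) ^ s := by
  classical
  unfold Cut.points
  refine Finset.card_image_le.trans ?_
  rw [Finset.card_product, Fintype.card_piFinset, Fintype.card_piFinset]
  simp

theorem placements_card {d : ℕ} (hd : 1 ≤ d) (n t s : ℕ) :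
    (placements d n t s).card ≤ (n * d + 1) ^ (t * (d + 1) + 3 * s) := by
  classical
  unfold placements
  have h1 : ∀ a ∈ (((Finset.univ : Finset (Finset (Fin n))).filter fun H => H.card ≤ t) ×ˢ
      Cut.points (n * d) s (n * d)),
      (Fintype.piFinset fun v : Fin n => Fintype.piFinset fun i : Fin d =>
        if v ∈ a.1 then Finset.Icc (0 : ℤ) ((n * d : ℕ) : ℤ) else
          {a.2 (finProdFinEquiv (v, i))}).card ≤ (n * d + 1) ^ (t * d) := by
    intro a ha
    rw [Finset.mem_product, Finset.mem_filter] at ha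
    rw [Fintype.card_piFinset]
    have h2 : ∀ v : Fin n, (Fintype.piFinset fun i : Fin d =>
        if v ∈ a.1 then Finset.Icc (0 : ℤ) ((n * d : ℕ) : ℤ) else
          {a.2 (finProdFinEquiv (v, i))}).card = if v ∈ a.1 then (n * d + 1) ^ d else 1 := by
      intro v
      rw [Fintype.card_piFinset]
      split_ifs with hv
      · rw [Finset.prod_const, Finset.card_univ, Fintype.card_fin]
        congr 1
        rw [Int.card_Icc]
        omega
      · simp
    rw [Finset.prod_congr rfl fun v _ => h2 v, Finset.prod_ite, Finset.prod_const_one, mul_one,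
      Finset.prod_const, ← pow_mul]
    refine Nat.pow_le_pow_right (Nat.succ_pos _) ?_
    rw [mul_comm]
    refine Nat.mul_le_mul_right _ (le_trans ?_ ha.1.2)
    rw [Finset.filter_mem_eq_inter, Finset.univ_inter]
  refine (Finset.card_biUnion_le_card_mul _ _ _ h1).trans ?_
  rw [Finset.card_product]
  have h3 : n + 1 ≤ n * d + 1 := by
    have : n * 1 ≤ n * d := Nat.mul_le_mul_left _ hd
    omega
  have h4 : n * d * (n * d) + 1 ≤ (n * d + 1) ^ 2 := by nlinarith
  calc _ ≤ ((n + 1) ^ t * ((n * d + 1) ^ s * (n * d * (n * d) + 1) ^ s)) *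
        (n * d + 1) ^ (t * d) :=
        Nat.mul_le_mul_right _ (Nat.mul_le_mul (small_card n t) (points_card _ _ _))
    _ ≤ ((n * d + 1) ^ t * ((n * d + 1) ^ s * ((n * d + 1) ^ 2) ^ s)) *
        (n * d + 1) ^ (t * d) := by
        gcongr
    _ = (n * d + 1) ^ (t * (d + 1) + 3 * s) := by
        rw [← pow_mul, ← pow_add, ← pow_add, ← pow_add]
        congr 1
        ring

theorem points_abs {N s : ℕ} {p : Fin N → ℤ} (hp : p ∈ Cut.points N s N) (i : Fin N) :
    |p i| ≤ ((s * N ^ (2 * N + 1) : ℕ) : ℤ) := by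
  classical
  unfold Cut.points at hp
  rw [Finset.mem_image] at hp
  obtain ⟨⟨y, z⟩, hyz, rfl⟩ := hp
  rw [Finset.mem_product, Fintype.mem_piFinset, Fintype.mem_piFinset] at hyz
  have hN : 1 ≤ N := Nat.one_le_iff_ne_zero.2 (by rintro rfl; exact i.elim0)
  change |∑ l : Fin s, (y l : ℤ) * ∏ k ∈ Finset.univ.erase i, ((z l : ℤ) - (k.val : ℤ))| ≤ _
  have h1 : ∀ l : Fin s, |(y l : ℤ) * ∏ k ∈ Finset.univ.erase i, ((z l : ℤ) - (k.val : ℤ))| ≤
      ((N ^ (2 * N + 1) : ℕ) : ℤ) := by
    intro l
    have hy := Finset.mem_range.1 (hyz.1 l)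
    have hz := Finset.mem_range.1 (hyz.2 l)
    rw [abs_mul, Finset.abs_prod]
    have h2 : ∏ k ∈ Finset.univ.erase i, |(z l : ℤ) - ((k : Fin N).val : ℤ)| ≤
        ((N ^ (2 * N) : ℕ) : ℤ) := by
      calc _ ≤ ∏ _k ∈ Finset.univ.erase i, ((N ^ 2 : ℕ) : ℤ) := by
            refine Finset.prod_le_prod (fun _ _ => abs_nonneg _) fun k _ => ?_
            have hk := k.isLt
            have hNN : N ≤ N ^ 2 := Nat.le_self_pow (by norm_num) N
            rw [abs_le]
            have e1 : N * N = N ^ 2 := by ring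
            have e2 : z l ≤ N ^ 2 := by
              rw [← e1]
              exact Nat.lt_succ_iff.1 hz
            constructor
            · have : ((k.val : ℕ) : ℤ) ≤ ((N ^ 2 : ℕ) : ℤ) := by exact_mod_cast (hk.le.trans hNN)
              have h0 : (0 : ℤ) ≤ (z l : ℤ) := by positivity
              linarith
            · have : ((z l : ℕ) : ℤ) ≤ ((N ^ 2 : ℕ) : ℤ) := by exact_mod_cast e2
              have h0 : (0 : ℤ) ≤ ((k.val : ℕ) : ℤ) := by positivity
              linarith
        _ = (((N ^ 2) ^ (N - 1) : ℕ) : ℤ) := by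
            rw [Finset.prod_const, Finset.card_erase_of_mem (Finset.mem_univ _),
              Finset.card_univ, Fintype.card_fin]
            push_cast
            rfl
        _ ≤ ((N ^ (2 * N) : ℕ) : ℤ) := by
            rw [← pow_mul]
            exact_mod_cast Nat.pow_le_pow_right hN (by omega)
    have h3 : |((y l : ℕ) : ℤ)| ≤ (N : ℤ) := by
      rw [Nat.abs_cast]
      exact_mod_cast Nat.lt_succ_iff.1 hy
    calc _ ≤ (N : ℤ) * ((N ^ (2 * N) : ℕ) : ℤ) :=
          mul_le_mul h3 h2 (Finset.prod_nonneg fun _ _ => abs_nonneg _) (by positivity)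
      _ = _ := by push_cast; ring
  refine (Finset.abs_sum_le_sum_abs _ _).trans ((Finset.sum_le_sum fun l _ => h1 l).trans ?_)
  rw [Finset.sum_const, Finset.card_univ, Fintype.card_fin]
  push_cast
  rw [nsmul_eq_mul]

theorem placements_abs {d n t s : ℕ} {q : Fin n → Fin d → ℤ} (hq : q ∈ placements d n t s)
    (v : Fin n) (i : Fin d) : |q v i| ≤ (((s + 1) * (n * d) ^ (2 * (n * d) + 1) : ℕ) : ℤ) := by
  classical
  obtain ⟨H, -, p, hp, h⟩ := mem_placements.1 hq
  have h1 := h v i
  have hn1 : 1 ≤ n := Nat.one_le_iff_ne_zero.2 (by rintro rfl; exact v.elim0)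
  have hd1 : 1 ≤ d := Nat.one_le_iff_ne_zero.2 (by rintro rfl; exact i.elim0)
  have hnd : 1 ≤ n * d := Nat.one_le_iff_ne_zero.2 (by positivity)
  by_cases hv : v ∈ H
  · rw [if_pos hv] at h1
    rw [abs_of_nonneg h1.1]
    refine h1.2.trans (Int.ofNat_le.2 ?_)
    calc n * d = 1 * (n * d) ^ 1 := by ring
      _ ≤ (s + 1) * (n * d) ^ (2 * (n * d) + 1) :=
        Nat.mul_le_mul (by omega) (Nat.pow_le_pow_right hnd (by omega))
  · rw [if_neg hv] at h1
    rw [h1]
    refine (points_abs hp _).trans (Int.ofNat_le.2 ?_)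
    exact Nat.mul_le_mul_right _ (Nat.le_succ _)

end Pool.Agent.R387.CW
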