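import Mathlib
import Pool.Agent.R387.CW.Dec
import Pool.Agent.R387.CW.Set

/-!
Every graph which has small cutwidth after the deletion of a few vertices attains its generic rank
at one of the explicit placements.
-/

set_option autoImplicit false
set_option linter.unusedSectionVars false

namespace Pool.Agent.R387.CW

open MvPolynomial Pool.Agent.W943 Pool.Agent.W943.Pm Pool.Agent.H789R5

variable {n d : ℕ}

open Classical in
theorem bigM_eval (G : SimpleGraph (Fin n)) {N : ℕ} (eR : Fin N ≃ G.edgeSet)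
    (H : Finset (Fin n)) (g : Fin n → Fin d → ℂ) (x : Fin (n * d) → ℂ) :
    (bigM G eR H g).map (eval x) =
      (rm G (fun v i => if v ∈ H then g v i else x (finProdFinEquiv (v, i)))).submatrix eR
        finProdFinEquiv.symm := by
  have h1 : (rm G (zz H g)).map (eval x) =
      rm G (fun v i => if v ∈ H then g v i else x (finProdFinEquiv (v, i))) := by
    rw [rm_map]
    congr 1
    funext v i
    unfold zz
    split_ifs <;> simp
  rw [← h1]
  rfl

theorem rowR_deg (H : Finset (Fin n)) (g : Fin n → Fin d → ℂ) (e : Sym2 (Fin n))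
    (c : Fin n × Fin d) : (rowR (zz H g) e c).totalDegree ≤ 1 := by
  classical
  unfold rowR
  split_ifs with h
  · refine (totalDegree_finsetSum _ _).trans (Finset.sup_le fun a _ => ?_)
    split_ifs
    · exact zz_deg H g _ _
    · rw [totalDegree_neg]; exact zz_deg H g _ _
    · simp
  · simp

theorem exists_placement {t w : ℕ} {G : SimpleGraph (Fin n)} (hG : HubCutwidthLE t w G)
    (p : Fin n → Fin d → ℝ) : ∃ q ∈ placements d n t (Nis.sd ℂ (width d t w) 1),
      (rigidityMatrix G p).rank ≤ (rigidityMatrix G (fun v i => (q v i : ℝ))).rank := by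
  classical
  obtain ⟨H, π, hH, hw⟩ := hG
  obtain ⟨q₀, hq₀, hr⟩ := exists_small G p
  set eR : Fin (Fintype.card G.edgeSet) ≃ G.edgeSet := (Fintype.equivFin _).symm with heR
  obtain ⟨x, hx, hxr⟩ := path_rank (pathHidden eR hH hw (fun v i => (q₀ v i : ℂ))) (δ := 1)
    (D := n * d) (fun i j => rowR_deg H _ _ _)
    (by rw [mul_one]; exact min_le_right _ _)
    (fun k => (q₀ (finProdFinEquiv.symm k).1 (finProdFinEquiv.symm k).2 : ℂ))
  rw [bigM_eval, bigM_eval] at hxr
  have hsub : ∀ P : Fin n → Fin d → ℂ,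
      ((rm G P).submatrix eR finProdFinEquiv.symm).rank = (rm G P).rank := fun P =>
    Matrix.rank_submatrix (rm G P) eR finProdFinEquiv.symm
  rw [hsub, hsub] at hxr
  have h1 : (fun (v : Fin n) (i : Fin d) => if v ∈ H then ((q₀ v i : ℤ) : ℂ) else
      ((q₀ (finProdFinEquiv.symm (finProdFinEquiv (v, i))).1
        (finProdFinEquiv.symm (finProdFinEquiv (v, i))).2 : ℤ) : ℂ)) =
      fun v i => ((q₀ v i : ℤ) : ℂ) := by
    funext v i
    rw [Equiv.symm_apply_apply]
    split_ifs <;> rfl
  set q : Fin n → Fin d → ℤ := fun v i => if v ∈ H then q₀ v i else x (finProdFinEquiv (v, i))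
    with hq
  have h2 : (fun (v : Fin n) (i : Fin d) => if v ∈ H then ((q₀ v i : ℤ) : ℂ) else
      ((x (finProdFinEquiv (v, i)) : ℤ) : ℂ)) = fun v i => ((q v i : ℤ) : ℂ) := by
    funext v i
    rw [hq]
    split_ifs with h <;> simp [h]
  rw [h1, h2, rank_cast, rank_cast] at hxr
  refine ⟨q, mem_placements.2 ⟨H, hH, x, hx, fun v i => ?_⟩, hr.trans hxr⟩
  by_cases hv : v ∈ H
  · rw [if_pos hv, hq]
    simp only [hv, if_true]
    exact ⟨(hq₀ v i).1, by exact_mod_cast (hq₀ v i).2⟩
  · rw [if_neg hv, hq]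
    simp only [hv, if_false]

end Pool.Agent.R387.CW
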